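import Pool.Agent.W567.Spencer2

/-!
# Vector balancing of zonotopes: Spencer's theorem for many vectors and inclusion of zonotopes
-/

set_option autoImplicit false

open Finset

namespace Pool.Agent.Y505.ZV

/-- Spencer's theorem for an arbitrary number of vectors of the cube. -/
theorem spencer : ∃ C : ℝ, 0 < C ∧ ∀ (N n : ℕ) (f : Fin n → Fin N → ℝ),
    (∀ g i, |f g i| ≤ 1) →
    ∃ ε : Fin n → ℝ, (∀ g, ε g = 1 ∨ ε g = -1) ∧ ∀ i, |∑ g, ε g * f g i| ≤ C * √N := by
  classical
  obtain ⟨C, hC, h⟩ := Pool.Agent.W567.Spencer.full_col'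
  refine ⟨2 * C + 1, by linarith, fun N n f hf => ?_⟩
  obtain ⟨x, hx, hsum, hcard⟩ := Pool.Agent.W567.Spencer.few_fractional N n f
  obtain ⟨ε, hε, hb⟩ := Pool.Agent.W567.Spencer.lindisc N (C * √N)
    (fun J _ _ f' hJ hf' => h N J f' hJ hf') (by positivity) (Fin n) f hf x hx hcard
  refine ⟨ε, hε, fun i => ?_⟩
  have h0 : ∑ g, x g * f g i = 0 := by
    have := congrFun hsum i
    simpa [Finset.sum_apply] using this
  have h1 : ∑ g, ε g * f g i = ∑ g, (ε g - x g) * f g i := by
    rw [← sub_zero (∑ g, ε g * f g i), ← h0, ← Finset.sum_sub_distrib]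
    exact Finset.sum_congr rfl fun g _ => by ring
  rw [h1]
  refine (hb i).trans ?_
  have hN : 1 ≤ √(N:ℝ) := by
    rw [Real.one_le_sqrt]
    have : 0 < N := i.pos
    exact_mod_cast this
  nlinarith

/-- Inclusion of zonotopes from the comparison of the support functions. -/
theorem zsub {a b d : ℕ} (P : Fin a → (Fin d → ℝ)) (Q : Fin b → (Fin d → ℝ)) (c : ℝ) (hc : 0 ≤ c)
    (h : ∀ x : Fin d → ℝ, ∑ k, |∑ i, P k i * x i| ≤ c * ∑ l, |∑ i, Q l i * x i|)
    (t : Fin a → ℝ) (ht : ∀ k, t k ∈ Set.Icc (-1 : ℝ) 1) :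
    ∃ s : Fin b → ℝ, (∀ l, s l ∈ Set.Icc (-1 : ℝ) 1) ∧
      ∑ k, t k • P k = c • ∑ l, s l • Q l := by
  classical
  let L : (Fin b → ℝ) →ₗ[ℝ] (Fin d → ℝ) :=
    { toFun := fun s => c • ∑ l, s l • Q l
      map_add' := by
        intro s s'
        rw [← smul_add, ← Finset.sum_add_distrib]
        congr 1
        exact Finset.sum_congr rfl fun l _ => by rw [Pi.add_apply, add_smul]
      map_smul' := by
        intro r s
        simp only [Pi.smul_apply, smul_eq_mul, mul_smul, RingHom.id_apply, ← Finset.smul_sum]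
        rw [smul_comm] }
  set cube : Set (Fin b → ℝ) := Set.pi Set.univ fun _ => Set.Icc (-1 : ℝ) 1 with hcube
  have hcc : IsCompact cube := isCompact_univ_pi fun _ => isCompact_Icc
  have hcv : Convex ℝ cube := convex_pi fun _ _ => convex_Icc _ _
  set S : Set (Fin d → ℝ) := L '' cube with hS
  have hSc : IsCompact S := hcc.image L.continuous_of_finiteDimensional
  have hSv : Convex ℝ S := hcv.linear_image L
  by_contra hcon
  have hz : (∑ k, t k • P k) ∉ S := by
    rintro ⟨s, hs, hsz⟩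
    exact hcon ⟨s, fun l => hs l (Set.mem_univ l), hsz.symm⟩
  obtain ⟨f, u, hfu, huz⟩ := geometric_hahn_banach_closed_point hSv hSc.isClosed hz
  -- the functional as a vector
  set x : Fin d → ℝ := fun i => f (Pi.single i 1) with hx
  have hf : ∀ y : Fin d → ℝ, f y = ∑ i, y i * x i := by
    intro y
    have e : y = ∑ i, y i • (Pi.single i (1:ℝ) : Fin d → ℝ) := by
      ext j
      simp [Finset.sum_apply, Pi.single_apply]
    conv_lhs => rw [e]
    rw [map_sum]
    exact Finset.sum_congr rfl fun i _ => by rw [map_smul, smul_eq_mul]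
  have h1 : f (L fun l => SignType.sign (f (Q l))) = c * ∑ l, |f (Q l)| := by
    change f (c • ∑ l, ((SignType.sign (f (Q l)) : ℝ)) • Q l) = _
    rw [map_smul, smul_eq_mul, map_sum]
    congr 1
    refine Finset.sum_congr rfl fun l _ => ?_
    rw [map_smul, smul_eq_mul, sign_mul_self]
  have h2 : f (L fun l => SignType.sign (f (Q l))) < u := by
    refine hfu _ ⟨_, ?_, rfl⟩
    intro l _
    have : ((SignType.sign (f (Q l)) : SignType) : ℝ) ∈ Set.Icc (-1:ℝ) 1 := by
      rcases SignType.trichotomy (SignType.sign (f (Q l))) with h | h | h <;> rw [h] <;> simp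
    exact this
  have h3 : f (∑ k, t k • P k) ≤ ∑ k, |f (P k)| := by
    rw [map_sum]
    refine Finset.sum_le_sum fun k _ => ?_
    rw [map_smul, smul_eq_mul]
    refine (le_abs_self _).trans ?_
    rw [abs_mul]
    have : |t k| ≤ 1 := abs_le.2 ⟨(ht k).1, (ht k).2⟩
    nlinarith [abs_nonneg (f (P k))]
  have h4 : ∑ k, |f (P k)| ≤ c * ∑ l, |f (Q l)| := by
    simp only [hf]
    exact h x
  linarith

end Pool.Agent.Y505.ZV
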